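import Pool.Agent.N113.BT.Main

set_option autoImplicit false

/-!
# The torsors of periods of motives whose Mumford-Tate domain is a ball of odd dimension

Let `A` be an abelian variety over `ℚ̄` and let `M` be any André motive over `ℚ̄` in the tensor
category generated by `h^1(A)` and the Tate motives. (By theorems of André this class of motives,
for all `A`, contains the motives of products of curves, abelian varieties, K3 surfaces,
hyperkähler varieties, cubic fourfolds and Fermat hypersurfaces.) Let `P` be the matrix of the periods
of `M`, and let `G ⊆ GL(H_B(M))` be *any* algebraic group over `ℚ` such that the comparison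
isomorphism of `M` is a point of a torsor of `G` defined over `ℚ̄`: `P T ∈ G(ℂ)` for some matrix `T`
with algebraic entries. By theorems of Deligne and André the motivic Galois group of `M` is the
Mumford-Tate group `MT(M)`. The period conjecture says that `P` is a generic point of a torsor of
`MT(M)`; in particular it predicts that every such `G` contains `MT(M)` (this prediction is
equivalent to: all de Rham-Betti classes in the tensor constructions of `M` are Hodge classes).

Let `𝔤` be the Lie algebra of the endomorphisms of `H_1(A, ℚ)` which annihilate all classes that are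
Hodge classes and de Rham-Betti classes; it is the Lie algebra of the Hodge group of `A`.

**Middle exterior parts** (`MiddlePart`). Let `W` be a direct summand of the `𝔤`-module `H_1(A, ℂ)`,
with the projector `P Q`. The summand `W` is a middle exterior part with `k` colours if it is
identified by `Q` with the space of the vectors with `m` particles of each of the `k` colours in a
module over the algebra of the canonical anticommutation relations with `2 m` modes of each colour, if
`𝔤` acts on `W` through the sum of the `k` Lie algebras `sl(2m)` and the scalars, and if the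
associative algebra generated by `𝔤 ⊗ ℂ` on `W` contains the number-preserving quadratic expressions
`a σ i * b σ j`. In other words `W` is a sum of copies of the tensor product of the `k` *middle exterior
powers* `⋀^m(ℂ^{2m})` of the standard representations of the `k` Lie algebras. The summand `W` need
not be defined over `ℚ`, or over the real numbers, and nothing is assumed about the action of `𝔤` on
the complement of `W`; the scalars can be arbitrary (twists by abelian varieties with complex
multiplication).

**The domain of `M`** (`DomainOf`). We assume that the elements of `[𝔤, 𝔤] ⊗ ℂ` which act trivially on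
`W` act on `M` by matrices which commute with the complex structure `N` of `M` (the generator of the
Lie algebra of the circle in the Hodge structure of `M`): in other words, the part of the Hodge group
of `A` which acts trivially on `W` acts trivially on the Mumford-Tate domain of `M`. Nothing else is
assumed about `M`.

**Theorem.** 1. `G` contains the derived group of `MT(M)`: for all elements `Z` of the derived algebra
of the Lie algebra of the Hodge group of `M`, and all complex numbers `t`, the matrix `exp (t Z)` is in
`G`. 2. If `A` has no factor of type IV, or if the centre of the Lie algebra of the Hodge group acts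
trivially on `M`, then `G` contains `MT(M)`.

## Which motives are these? (Explanations, not part of the statement)

The Hodge structure of `H_1(A)` has only two Hodge types. So the Mumford-Tate domain of `M` is a point,
a disc (`m = 1`), or a complex ball of dimension `2m - 1`: of the `k` real forms of `sl(2m)` one is
`su(1, 2m - 1)` and the others are compact. Conversely let `M` be any motive of abelian type (in the
tensor category of `h^1(A')`) whose Mumford-Tate domain is a complex ball of odd dimension `2m - 1`
and whose adjoint Mumford-Tate group is simple over `ℚ`. By the classification of Satake and Deligne of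
the symplectic representations there is an abelian variety `A''` over `ℚ̄` which has a middle exterior
part and such that the Hodge group of `A = A' × A''` has the same adjoint group as `M`. So the theorem
says that for **all** motives of abelian type whose Mumford-Tate domain is a complex ball of odd
dimension, every `G` contains the derived group of `MT(M)`, and `MT(M)` if there are no factors of
type IV. Examples:

* abelian varieties with multiplication by a CM field `E` of arbitrary degree `2d`, of dimension
  `2md`, with the signature `(1, 2m - 1)` at one place and `(0, 2m)` or `(2m, 0)` at the other places,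
  whose Mumford-Tate domain is the whole ball of dimension `2m - 1`, and all motives which are
  constructed from them, also their twists by abelian varieties with complex multiplication, and their
  products with abelian varieties with complex multiplication. For example (for general `f`) the
  Jacobians of the curves `y ^ 3 = f(x)`, `f` of degree five or six (`m = 2`); the primitive parts of
  the Jacobians of `y ^ 4 = f(x)`, `f` of degree eight (`m = 3`); the primitive parts of the
  Jacobians of `y ^ 6 = f(x)`, `f` of degree twelve (`m = 5`), that is, the general fibres of the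
  family of Deligne and Mostow of dimension nine;
* motives of K3 type with multiplication by a CM field `E`, of even rank over `E`, with their twists;
* motives on Shimura varieties for unitary groups of division algebras (`M` need not contain a
  motive of the form `h^1`, for example the adjoint motives of such Shimura varieties).

For balls of even dimension the subalgebra `so(n, 1)` of `su(n, 1)`, whose domain is a totally real ball
in the complex ball, cannot be excluded by the theorem of Schneider and Lang (Wüstholz), since it acts
irreducibly on all exterior powers of the standard representation.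

Known before: the case that `A` is a Kuga-Satake variety of a K3 surface with complex multiplication
(`UnitaryKugaSatake` in the starting library); the case that `W` is all of `H_1(A, ℂ)`
(`MiddleExteriorMotives`); all motives `M` whose domain is a disc (`m = 1`, `ShimuraCurveMotives`).
New here: only a complex summand of `H_1(A)` is needed, the scalars are arbitrary, and `M` is an
arbitrary motive with the same domain.

Nothing is assumed about periods: `AbVar` is the description of an abelian variety over `ℚ̄` by theta
functions (see `Pool/Agent/Y102/AVDefs.lean`, where it is explained why every abelian variety has it),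
and the transcendence theorems which are used, the theorem of Schneider and Lang and the
transcendence of `π`, are proved in this repository.

## Motives

As `h^1(A)` is dual to `h^1(A)(1)`, the motive `M` is a direct factor of a sum of motives
`h^1(A) ^ {⊗ r i} (w i)`. Its Betti realization is a space of families of multilinear forms with
rational values, in `r i` variables in `H_1(A, ℚ)`, with a basis `B`. It is the image of a motivated
projector, and the realizations of motivated classes are Hodge classes and de Rham-Betti classes; so
it is stable under `𝔤` (`InLie`), and under the weights. The de Rham realization has a basis which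
consists of combinations of products of elements of `H^1_dR(A / ℚ̄)` with algebraic coefficients. The
matrix `P` of the periods expresses it in terms of the basis `(2 π i) ^ (w i) B` of the Betti
realization (`IsMotive`).

## Proof

Let `L` be the Lie algebra of `G`, and let `𝔮` be the set of the `X` in `𝔤` whose action on `M` is in
`L` up to a multiple of the weight operator. By the theorem of Schneider and Lang `𝔮` acts semisimply on
`H_1(A, ℚ)`, with the same commutant as `𝔤` (`Pool.Agent.N208.AM.qM_full`).

1. The middle exterior part is rigid (`MidPart.rig`, from `Pool.Agent.R918.MidHyp.all_mem`): a Lie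
   subalgebra of the sum of the `k` Lie algebras `sl(2m)` which generates the same associative algebra
   on `W` is the whole sum. So `[𝔮, 𝔮] ⊗ ℂ` and `[𝔤, 𝔤] ⊗ ℂ` have the same image in the endomorphisms
   of `W` (`RigPart.der`).
2. Let `m` and `e` be the real spans of the actions of `[𝔤, 𝔤]` and `[𝔮, 𝔮]` on `M`, and let `n` be the
   ideal of the real parts of the actions on `M` of the elements of `[𝔤, 𝔤] ⊗ ℂ` which act trivially
   on `W`. Then `m = e + n`, and `n` commutes with `N` (`N_mem'`).
3. Lemma on real Lie algebras (`mem_of_sup`): let `m` be a real Lie algebra of matrices, let the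
   conjugation with the exponential of `N` in `m` be a Cartan involution for the trace form, let `n` be
   an ideal of `m` which commutes with `N`, and let `e` be a subalgebra with `m = e + n`. Then `N` is
   in `e`. Proof: let `X` be in the noncompact part of `m`. There are `k`, `l` in `n` such that `X + k`
   and `N + l` are in `e`; they commute with `X` and `N`. The square of the commutator with `k` has no
   positive eigenvalue on `n`, and the square of the commutator with `X` is positive on its image. So a
   polynomial in the square of the commutator with `X + k` maps `N + l` to `[X, [X, N]]`, which is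
   therefore in `e` and orthogonal to `n`. The intersection of `e` with the orthogonal complement of
   `n` is an ideal of `m`, and the orthogonal complement of this ideal has no noncompact part; so the
   component of `N` in it is central, that is, zero.
-/

open Module Matrix Pool.Agent.Y102 Pool.Agent.W516.DR Pool.Agent.H204R3.GP

noncomputable section

namespace Pool.Agent.Results.MP_77d3f5_ag.BallMotives

variable {g : ℕ} (A : AbVar g)

/-! ### The Lie algebra -/

/-- The multilinear forms in `2m` variables in the rational homology. -/
abbrev Form (m : ℕ) : Type := MultilinearMap ℚ (fun _ : Fin m × Fin 2 => A.H1) ℚ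

/-- `φ` is a de Rham-Betti class in `H^1(A) ^ {⊗ 2m} (m)`. -/
def IsDRB {m : ℕ} (φ : Form A m) : Prop :=
  IsDeRhamBettiForm QBar A.dR (2 * Real.pi * Complex.I) m φ

/-- `φ` is a Hodge class in `H^1(A) ^ {⊗ 2m} (m)`. -/
def IsHodge {m : ℕ} (φ : Form A m) : Prop := IsHodgeTensor (A.per : A.H1 →+ (Fin g → ℂ)) φ

/-- The endomorphism `X` annihilates the form `φ` (as a derivation). -/
def Annihilates {m : ℕ} (X : Module.End ℚ A.H1) (φ : Form A m) : Prop :=
  ∀ v, ∑ k, φ (Function.update v k (X (v k))) = 0

/-- `X` is in the Lie algebra `𝔤`: it annihilates all classes that are Hodge classes and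
de Rham-Betti classes. -/
def InLie (X : Module.End ℚ A.H1) : Prop :=
  ∀ (m : ℕ) (φ : Form A m), IsHodge A φ → IsDRB A φ → Annihilates A X φ

/-- The algebra of the endomorphisms of `H_1(A, ℂ)`, as matrices for the basis of the lattice. -/
abbrev EndC (_ : AbVar g) : Type := Matrix (Fin (2 * g)) (Fin (2 * g)) ℂ

/-- The matrix of the extension of an endomorphism of `H_1(A, ℚ)` to `H_1(A, ℂ)`. -/
def toC (X : Module.End ℚ A.H1) : EndC A := Matrix.of fun i j => (X (Pi.single j 1) i : ℂ)

/-- The complex Lie algebra `𝔤 ⊗ ℂ`, acting on `H_1(A, ℂ)`. -/
def lieC : Submodule ℂ (EndC A) := Submodule.span ℂ {Y | ∃ X, InLie A X ∧ Y = toC A X}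

/-! ### The middle exterior type -/

section Mid

variable {N k n : ℕ}

/-- The canonical anticommutation relations for the creation operators `a σ i` and the annihilation
operators `b σ i`, where `σ` is the colour. -/
def Car (a b : Fin k → Fin n → Matrix (Fin N) (Fin N) ℂ) : Prop :=
  (∀ σ i τ j, a σ i * a τ j = -(a τ j * a σ i)) ∧
  (∀ σ i τ j, b σ i * b τ j = -(b τ j * b σ i)) ∧
  ∀ σ i τ j, a σ i * b τ j + b τ j * a σ i = if σ = τ ∧ i = j then 1 else 0

/-- The action of the matrix `x` on the exterior algebra of the colour `σ`, in terms of creation and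
annihilation operators. -/
def quant (a b : Fin k → Fin n → Matrix (Fin N) (Fin N) ℂ) (σ : Fin k)
    (x : Matrix (Fin n) (Fin n) ℂ) : Matrix (Fin N) (Fin N) ℂ :=
  ∑ i, ∑ j, x i j • (a σ i * b σ j)

end Mid

/-- **A middle exterior part** of `H_1(A, ℂ)`, with `k` colours: the projector `P * Q` commutes with
`𝔤`; the map `Q` identifies its image `W` with the space of the vectors with `m` particles of each
colour (the number operator of the colour `σ` is `quant a b σ 1`), for some operators `a`, `b` which
satisfy the canonical anticommutation relations with `2 m` modes of each colour, and `P` is the inverse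
of `Q` on this space. The Lie algebra `𝔤` acts on `W` by elements of the sum of the `k` Lie algebras
`sl(2m)` and scalars, and the associative algebra generated by `𝔤 ⊗ ℂ` contains elements which act on
`W` like `a σ i * b σ j`. -/
structure MiddlePart {N k m : ℕ} (a b : Fin k → Fin (2 * m) → Matrix (Fin N) (Fin N) ℂ)
    (P : Matrix (Fin (2 * g)) (Fin N) ℂ) (Q : Matrix (Fin N) (Fin (2 * g)) ℂ) : Prop where
  /-- the canonical anticommutation relations -/
  car : Car a b
  /-- `P * Q` and `Q * P` are projectors -/
  left : P * Q * P = P
  right : Q * P * Q = Q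
  /-- the image of `Q` is the space of the vectors with `m` particles of each colour -/
  middle : ∀ v, (∃ u, v = Q.mulVec u) ↔ ∀ σ, (quant a b σ 1).mulVec v = (m : ℂ) • v
  /-- the image of `P * Q` and its complement are stable under `𝔤` -/
  stable : ∀ X, InLie A X → P * Q * toC A X = toC A X * (P * Q)
  /-- `𝔤` acts through the sum of the Lie algebras `sl(2m)` and the scalars -/
  acts : ∀ X, InLie A X → ∃ c : ℂ, P * Q * toC A X + c • (P * Q) ∈
    Submodule.span ℂ {Y | ∃ σ x, Matrix.trace x = 0 ∧ Y = P * quant a b σ x * Q}
  /-- the associative algebra generated by `𝔤 ⊗ ℂ` -/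
  generates : ∀ σ i j, ∃ Y ∈ Algebra.adjoin ℂ (lieC A : Set (EndC A)),
    P * (a σ i * b σ j) * Q = P * Q * Y

/-! ### Motives -/

variable {s n : ℕ} (r : Fin s → ℕ) (w : Fin s → ℤ)

/-- The Betti realization of the sum of the motives `h^1(A) ^ {⊗ r i} (w i)`: families of multilinear
forms in `r i` variables in the rational homology. -/
abbrev Tensors : Type := ∀ i : Fin s, MultilinearMap ℚ (fun _ : Fin (r i) => A.H1) ℚ

variable {A r}

/-- `M` is the matrix of the action of the endomorphism `X` of the rational homology of `A` (as a
derivation) on the space of tensors with the basis `B`. -/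
def IsLieMatrix (B : Fin n → Tensors A r) (X : Module.End ℚ A.H1)
    (M : Matrix (Fin n) (Fin n) ℚ) : Prop :=
  ∀ a i v, ∑ k, B a i (Function.update v k (X (v k))) = ∑ b, M b a * B b i v

/-- The subspace with the basis `B` is the Betti realization of a direct factor `M` of the sum of the
motives `h^1(A) ^ {⊗ r i} (w i)`, and `P` is the matrix of the periods of `M` for the basis `B` and for
some basis of the de Rham realization of `M` over `ℚ̄`. -/
structure IsMotive (B : Fin n → Tensors A r) (P : Matrix (Fin n) (Fin n) ℂ) : Prop where
  /-- `B` is a basis of a subspace -/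
  basis : LinearIndependent ℚ B
  /-- the subspace is stable under `𝔤` -/
  lie : ∀ X, InLie A X → ∃ M : Matrix (Fin n) (Fin n) ℚ, IsLieMatrix B X M
  /-- the subspace is stable under the weights -/
  weight : ∃ M : Matrix (Fin n) (Fin n) ℚ, ∀ a i v,
    ((r i : ℚ) - 2 * w i) * B a i v = ∑ b, M b a * B b i v
  /-- the de Rham realization has a basis of elements with algebraic coefficients in terms of the
  tensor products of the elements of the basis of `H^1_dR(A / ℚ̄)` -/
  deRham : ∃ c : Fin n → ∀ i : Fin s, (Fin (r i) → Fin g ⊕ Fin g) → ℂ,
    (∀ a i J, IsAlgebraic ℚ (c a i J)) ∧ ∀ a i (v : Fin (r i) → A.H1),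
      ∑ J, c a i J * ∏ k, A.dR (J k) (v k) =
        (2 * Real.pi * Complex.I) ^ (w i) * ∑ b, P b a * (B b i v : ℂ)
  /-- the matrix of the periods is invertible -/
  det : P.det ≠ 0

/-! ### The Mumford-Tate domain -/

/-- `N` is the matrix of the action on `M` of the multiplication with `i` on `H_1(A, ℝ) = ℂ ^ g` (as a
derivation): the generator of the Lie algebra of the circle in the Hodge structure of `M`. -/
def IsComplexStructure (B : Fin n → Tensors A r) (N : Matrix (Fin n) (Fin n) ℝ) : Prop :=
  ∀ a i (j : Fin (r i) → Fin (2 * g)),
    ∑ k, ∑ l : Fin (2 * g), A.lam.repr (Complex.I • A.lam (j k)) l *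
        (B a i (Function.update (fun p => Pi.single (j p) 1) k (Pi.single l 1)) : ℝ) =
      ∑ b, N b a * (B b i (fun p => Pi.single (j p) 1) : ℝ)

variable (A) in
/-- The derived algebra `[𝔤, 𝔤]`. -/
def derivedLie : Submodule ℚ (Module.End ℚ A.H1) :=
  Submodule.span ℚ {Z | ∃ X, InLie A X ∧ ∃ Y, InLie A Y ∧ Z = X * Y - Y * X}

/-- The part of the Hodge group which acts trivially on the image of the projector `E` acts trivially
on the Mumford-Tate domain of `M`: if an element of `[𝔤, 𝔤] ⊗ ℂ`, which acts on `H_1(A, ℂ)` by `p.1`
and on `M` by `p.2`, acts trivially on the image of `E`, then `p.2` commutes with the complex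
structure `N` of `M`. -/
def DomainOf (E : EndC A) (B : Fin n → Tensors A r) (N : Matrix (Fin n) (Fin n) ℝ) : Prop :=
  ∀ p ∈ Submodule.span ℂ {p : EndC A × Matrix (Fin n) (Fin n) ℂ | ∃ X ∈ derivedLie A,
      ∃ M : Matrix (Fin n) (Fin n) ℚ, IsLieMatrix B X M ∧
        p = (toC A X, M.map fun q => (q : ℂ))},
    E * p.1 = 0 → p.2 * N.map (fun x => (x : ℂ)) = N.map (fun x => (x : ℂ)) * p.2

/-- The Lie algebra of the Hodge group of `M`: the smallest rational Lie algebra whose real span
contains the complex structure `N`. -/
def hodgeLie (N : Matrix (Fin n) (Fin n) ℝ) : Submodule ℚ (Matrix (Fin n) (Fin n) ℚ) :=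
  sInf {L | (∀ x ∈ L, ∀ y ∈ L, x * y - y * x ∈ L) ∧
    N ∈ Submodule.span ℝ {M | ∃ x ∈ L, M = x.map fun q => (q : ℝ)}}

/-- The derived algebra. -/
def derived (L : Submodule ℚ (Matrix (Fin n) (Fin n) ℚ)) :
    Submodule ℚ (Matrix (Fin n) (Fin n) ℚ) :=
  Submodule.span ℚ {z | ∃ x ∈ L, ∃ y ∈ L, z = x * y - y * x}

/-- The centre of the Lie algebra acts trivially: an element of `𝔤` which acts on `M` like a central
element acts trivially. -/
def CentreActsTrivially (B : Fin n → Tensors A r) : Prop :=
  ∀ X, InLie A X → (∀ Y, InLie A Y → IsLieMatrix B (X * Y - Y * X) 0) → IsLieMatrix B X 0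

/-! ### Algebraic groups, torsors and the Mumford-Tate group -/

/-- A subgroup of `GL_R(ℂ)` defined by polynomials with rational coefficients. -/
def IsAlgebraicSubgroup {R : Type} [Fintype R] [DecidableEq R] (G : Subgroup (GL R ℂ)) : Prop :=
  ∃ I : Set (MvPolynomial (R × R) ℚ), ∀ x : GL R ℂ, x ∈ G ↔
    ∀ p ∈ I, MvPolynomial.aeval (fun b : R × R => (x : Matrix R R ℂ) b.1 b.2) p = 0

/-- The torsor `G · T⁻¹` of `G`: the matrices `F` such that `F T` is an element of `G`. It is
defined over `ℚ̄` if `T` is a matrix with algebraic entries. -/
def torsor (G : Subgroup (GL (Fin n) ℂ)) (T : Matrix (Fin n) (Fin n) ℂ) :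
    Set (Matrix (Fin n) (Fin n) ℂ) :=
  {F | ∃ x ∈ G, (x : Matrix (Fin n) (Fin n) ℂ) = F * T}

variable (A) in
/-- The Hodge structure of `H^1(A)`: the complex number `z` acts on `H_1(A, ℝ) = ℂ ^ g` by
multiplication, and on `H^1(A, ℝ)` by the transposed map, here in the basis of `H^1(A, ℚ)` which is
dual to the basis of the lattice. -/
def hodge (z : ℂ) : Matrix (Fin (2 * g)) (Fin (2 * g)) ℂ :=
  Matrix.of fun i j => ((A.lam.repr (z • A.lam i) j : ℝ) : ℂ)

/-- `R` is the matrix of the action of the complex number `z` on `M`, in the Hodge structure given by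
those of `H^1(A)` and of the Tate motives (`z` acts on `ℚ(1)` by `(z z̄)⁻¹`). -/
def IsHodgeMatrix (B : Fin n → Tensors A r) (z : ℂ) (R : Matrix (Fin n) (Fin n) ℂ) : Prop :=
  ∀ a i (j : Fin (r i) → Fin (2 * g)),
    ∑ j' : Fin (r i) → Fin (2 * g), (∏ k, hodge A z (j k) (j' k)) *
        (B a i (fun k => Pi.single (j' k) 1) : ℂ) =
      (z * (starRingEnd ℂ) z) ^ (w i) * ∑ b, R b a * (B b i (fun k => Pi.single (j k) 1) : ℂ)

/-- The Mumford-Tate group of `M`: the smallest algebraic group over `ℚ` which contains the image of
the Deligne torus. -/
def mumfordTate (B : Fin n → Tensors A r) : Subgroup (GL (Fin n) ℂ) :=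
  sInf {G | IsAlgebraicSubgroup G ∧ ∀ z : ℂ, z ≠ 0 → ∃ x ∈ G,
    IsHodgeMatrix w B z (x : Matrix (Fin n) (Fin n) ℂ)}

variable (A) in
/-- There is no factor of type IV: the Rosati involution is trivial on the centre of the algebra of
the endomorphisms, that is, the centre contains no nonzero element which is skew-symmetric for the
polarization `A.om`. (The endomorphisms of the de Rham-Betti object `H_1(A)` are the endomorphisms of
`A` by the theorem of Bost, which is proved in `Pool.Agent.Y102.AbVar.hodge_end`.) -/
def NoFactorOfTypeIV : Prop :=
  ∀ P : Module.End ℚ A.H1, IsDeRhamBettiEnd QBar A.dR P →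
    (∀ Q : Module.End ℚ A.H1, IsDeRhamBettiEnd QBar A.dR Q → P * Q = Q * P) →
    (∀ u v, A.om (P u) v + A.om u (P v) = 0) → P = 0

/-- **Theorem.** Let `a`, `b`, `PW`, `QW` be a middle exterior part `W` of `H_1(A, ℂ)`. Let `M` be a
motive in the tensor category generated by `h^1(A)` and the Tate motives, with the matrix `P` of
periods and the complex structure `N`, such that the part of the Hodge group of `A` which acts
trivially on `W` acts trivially on the Mumford-Tate domain of `M`. Let `G` be an algebraic group over
`ℚ` with a torsor over `ℚ̄` which contains `P`.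

1. For all elements `Z` of the derived algebra of the Lie algebra of the Hodge group of `M` and all
   complex numbers `t` the matrix `exp (t Z)` is in `G`.
2. If `A` has no factor of type IV, or if the centre acts trivially on `M`, then the Mumford-Tate group
   of `M` is contained in `G`. -/
theorem result {g s n k m NW : ℕ} (A : AbVar g)
    (a b : Fin k → Fin (2 * m) → Matrix (Fin NW) (Fin NW) ℂ)
    (PW : Matrix (Fin (2 * g)) (Fin NW) ℂ) (QW : Matrix (Fin NW) (Fin (2 * g)) ℂ)
    (hA : MiddlePart A a b PW QW) (r : Fin s → ℕ) (w : Fin s → ℤ)
    (B : Fin n → Tensors A r) (P : Matrix (Fin n) (Fin n) ℂ) (hM : IsMotive w B P)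
    (N : Matrix (Fin n) (Fin n) ℝ) (hN : IsComplexStructure B N) (hD : DomainOf (PW * QW) B N)
    (G : Subgroup (GL (Fin n) ℂ)) (hG : IsAlgebraicSubgroup G) (T : Matrix (Fin n) (Fin n) ℂ)
    (hT : ∀ i j, IsAlgebraic ℚ (T i j)) (hP : P ∈ torsor G T) :
    (∀ Z ∈ derived (hodgeLie N), ∀ t : ℂ, ∃ x ∈ G,
      (x : Matrix (Fin n) (Fin n) ℂ) = NormedSpace.exp (t • Z.map fun q => (q : ℂ))) ∧
    (NoFactorOfTypeIV A ∨ CentreActsTrivially B → mumfordTate w B ≤ G) := by
  have hrig := N113.BT.rigPart_of (A := A) hA.car.1 hA.car.2.1 hA.car.2.2 hA.left hA.right
    hA.middle hA.stable hA.acts hA.generates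
  obtain ⟨hM', Wt, hW⟩ : N208.AM.Mot w B P ∧ ∃ Wt, N208.AM.WRel w B Wt := by
    have hwt : ∃ M, N208.AM.WRel w B M := by
      obtain ⟨M, h⟩ := hM.weight
      refine ⟨M, fun a i => MultilinearMap.ext fun v => ?_⟩
      rw [_root_.smul_apply, _root_.sum_apply, smul_eq_mul, h a i v]
      rfl
    refine ⟨⟨hM.basis, fun X hX => ?_, hwt, hM.det, hM.deRham⟩, hwt⟩
    obtain ⟨M, h⟩ := hM.lie X hX
    refine ⟨M, fun a i => MultilinearMap.ext fun v => ?_⟩
    rw [N208.AM.dact_apply, _root_.sum_apply, h a i v]
    rfl
  have hrelL : ∀ X M, N208.AM.Rel B X M ↔ IsLieMatrix B X M := by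
    intro X M
    constructor
    · intro h a i v
      have h1 := congrArg (fun φ : MultilinearMap ℚ (fun _ : Fin (r i) => A.H1) ℚ => φ v) (h a i)
      simp only [N208.AM.dact_apply, _root_.sum_apply, _root_.smul_apply, smul_eq_mul] at h1
      exact h1
    · intro h a i
      refine MultilinearMap.ext fun v => ?_
      rw [N208.AM.dact_apply, _root_.sum_apply, h a i v]
      rfl
  have hb : ∀ j : Fin (2 * g), A.bas j = Pi.single j 1 := fun j => by
    unfold AbVar.bas
    rw [Pi.basisFun_apply]
  have hrel : ∀ z R, N208.AM.HRel w B z R → IsHodgeMatrix w B z R := by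
    intro z R h a i j
    have h1 := h a i j
    simp only [hb] at h1
    exact h1
  have hA' : NoFactorOfTypeIV A → N208.AM.NT4 A := fun hA P hP hc hs =>
    hA P (A.mem_EA.1 hP) (fun Q hQ => hc Q (A.mem_EA.2 hQ)) hs
  have hNC : CentreActsTrivially B → N208.AM.NoCentre B := fun hc X hX h =>
    (hrelL X 0).2 (hc X hX fun Y hY => (hrelL _ 0).1 (h Y hY))
  -- the complex structure
  have hNR : N208.AM.RelR B AbVar.JJ N := by
    intro a i
    refine Basis.ext_multilinear (fun _ => A.lam) fun j => ?_
    have h1 := hN a i j
    rw [N208.AM.dact_apply, _root_.sum_apply]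
    have h2 : (fun p => A.lam (j p)) = fun p => A.per (Pi.single (j p) 1) := by
      funext p
      rw [← hb, A.per_bas]
    have h3 : ∀ b, (N b a • A.Phi (B b i)) (fun p => A.lam (j p)) =
        N b a * (B b i (fun p => Pi.single (j p) 1) : ℝ) := fun b => by
      rw [_root_.smul_apply, smul_eq_mul, h2, A.Phi_per]
    rw [Finset.sum_congr rfl fun b _ => h3 b, ← h1]
    refine Finset.sum_congr rfl fun k _ => ?_
    rw [AbVar.JJ_apply, ← A.lam.sum_repr (Complex.I • A.lam (j k)), MultilinearMap.map_update_sum]
    simp only [A.lam.sum_repr]
    refine Finset.sum_congr rfl fun l _ => ?_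
    rw [MultilinearMap.map_update_smul, smul_eq_mul]
    congr 1
    have h4 : A.lam l = A.per (Pi.single l 1) := by rw [← hb, A.per_bas]
    rw [h2, h4, N208.AM.update_per, A.Phi_per]
  have hα : ∀ p ∈ N113.BT.pC B (Pool.Agent.Y102.der A.NA), matE (2 * g) (PW * QW) * p.1 = 0 →
      p.2 * N208.AM.cxm N = N208.AM.cxm N * p.2 := by
    refine N113.BT.alpha_of fun p hp h0 => ?_
    refine hD p ?_ h0
    refine (Submodule.span_mono ?_) hp
    rintro _ ⟨X, hX, M, hM, rfl⟩
    refine ⟨X, ?_, M, (hrelL _ _).1 hM, rfl⟩
    refine (Submodule.span_mono ?_) hX
    rintro _ ⟨X, hX, Y, hY, rfl⟩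
    exact ⟨X, hX, Y, hY, rfl⟩
  -- the group
  have hdet : T.det ≠ 0 := by
    obtain ⟨x, -, hxT⟩ := hP
    intro h0
    have h1 : (x : Matrix (Fin n) (Fin n) ℂ).det = 0 := by
      rw [hxT, Matrix.det_mul, h0, mul_zero]
    exact (Matrix.GeneralLinearGroup.det x).ne_zero h1
  obtain ⟨T', h1, h2⟩ := Pool.Agent.R917.alg_inv hT hdet
  obtain ⟨x, hx, hxT⟩ := hP
  have hH : N208.AM.PtM P _ := ⟨Pool.Agent.R917.algGrp_of hG, T, T', h1, h2, x, hx, hxT⟩
  refine ⟨fun Z hZ t => ?_, fun hA => ?_⟩
  · obtain ⟨L, hL1, hL2, hL3⟩ := N113.BT.main_der' hM' hW hH hrig hNR hα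
    have h3 : hodgeLie N ≤ L := sInf_le ⟨hL1, hL2⟩
    have h4 : derived (hodgeLie N) ≤
        N208.AM.LQ {M | ∃ x ∈ G, (x : Matrix (Fin n) (Fin n) ℂ) = M} := by
      unfold derived
      rw [Submodule.span_le]
      rintro _ ⟨x, hx, y, hy, rfl⟩
      exact hL3 x (h3 hx) y (h3 hy)
    exact Pool.Agent.R917.exp_mem hH.grp fun d => (h4 hZ d).smul t
  · have hc : N208.AM.NoCentre B := hA.elim
      (fun h => N208.AM.noCentre_of_NT4 hM' (hA' h)) hNC
    refine sInf_le ⟨hG, fun z hz => ?_⟩
    obtain ⟨⟨x, hx, hx'⟩, h4⟩ := N113.BT.main_B' hM' hW hH hc hrig hNR hα hz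
    refine ⟨x, hx, ?_⟩
    rw [hx']
    exact hrel _ _ h4

end Pool.Agent.Results.MP_77d3f5_ag.BallMotives
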