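import Pool.Agent.N156.HC.Main

/-!
Grothendieck's period conjecture in bounded degree and height for all the double covers of the line which ramify at
infinity and at subsets of a set of `N + 1` points: the curves `C S : y² = ∏ i ∈ S, (x - e i)`, `S` a subset of
`{0, …, N}` of odd cardinality at least three, all with the same parameters `e`. (For `|S| = 3` these are the elliptic
curves with the cross-ratios of infinity and all triples of the points. The `C S` are quotients of the curve
`y i ² = x - e i`, `i ≤ N`, a complete intersection of diagonal quadrics: those of positive genus by the subgroups of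
index two of `{± 1} ^ (N + 1)` which do not contain `- 1`.) The families with symplectic monodromy of
`SymplecticMonodromy` have by definition a Zariski dense monodromy, and there this was checked for curves with
independent branch points only. Here all the curves depend on the same points: that the joint monodromy is Zariski dense
in the product of all the symplectic groups is proved in `Pool.Agent.N156.HC.Pure` (`single_sp`), and its consequence
for the relations over `ℂ(e)` is `Pool.Agent.N156.HC.relS`.
-/

namespace Pool.Agent.Results.MP_77d3f5_ag.BranchSubsets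

open Filter Pool.Agent Pool.Agent.Y890.MV Pool.Agent.Y890.SM Pool.Agent.N156.HC
open Pool.Agent.Y890.HE (Ord)

/-- Let `Ord N` be the set of the `(e 0, …, e N)`, complex numbers of increasing real parts. The period matrices
`pmS e S` of the curves `y² = ∏ i ∈ S, (x - e i)`, for all `S ⊆ {0, …, N}` of odd cardinality at least three, are
analytic on `Ord N`, and for real `e` their entries are the integrals of `x ^ j dx / √|∏ i ∈ S, (x - e i)|` between
consecutive points of `S`. With `2 π i` they are a point of the torsor `torS e`, the `(Y, μ)`, `μ ≠ 0`, with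
`Y S * QS e S * (Y S)ᵀ = μ J` for all `S` (`QS e S` the cup product on the differentials `x ^ j dx / y`, `J` the
intersection form). There is `ω → ∞` such that for all large `T`, all number fields `K` of degree at most `ω T`, embedded
in `ℂ`, and all complex numbers `ξ a`, `a < ω T`: the points of `Ord N` with coordinates in `K` of height at most `T`, of
norm at most `ω T` and at distance at least `1 / ω T` from the complement of `Ord N`, at which some relation of degree at
most `ω T` (in each entry), with coefficients in the integers of `K` of size at most `T ^ ω T`, between the periods of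
all the curves and the powers of `2 π i` (`a`-th power, `a < ω T`) does not hold on the torsor, or between the periods
and the `ξ a` does not hold at the `(Y, 2 π i)` in the torsor (`ExcS`), lie on at most `T ^ (1 / ω T)` hypersurfaces of
degree at most `T ^ (1 / ω T)`; and there are at most `T ^ (1 / ω T) * M ^ N` of them, `M` being the number of elements
of `K` of height at most `T`. -/
theorem result (N : ℕ) :
    (∀ (S : Sb N) (l j : Fin (sz S)), AnalyticOnNhd ℂ (fun e => pmS e S l j) (Ord N)) ∧
    (∀ e : Fin (N + 1) → ℝ, StrictMono e → ∀ (S : Sb N) (l j : Fin (sz S)),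
      pmS (fun i => (e i : ℂ)) S l j = ((∫ x in (e (el S l.castSucc))..(e (el S l.succ)),
        x ^ (j : ℕ) / √|∏ i ∈ S.1, (x - e i)| : ℝ) : ℂ)) ∧
    (∀ e ∈ Ord N, (pmS e, 2 * (Real.pi : ℂ) * Complex.I) ∈ torS e) ∧
    ∃ (ω : ℝ → ℕ) (T₀ : ℝ), Tendsto ω atTop atTop ∧ Monotone ω ∧ ∀ T, T₀ ≤ T → 0 < ω T ∧
      ∀ (K : Type) [Field K] [NumberField K], Module.finrank ℚ K ≤ ω T → ∀ (io : K →+* ℂ) (ξ : Fin (ω T) → ℂ),
        Y124.Cov ⌊T ^ ((ω T : ℝ)⁻¹)⌋₊ ⌊T ^ ((ω T : ℝ)⁻¹)⌋₊
          ((fun (e : Fin (N + 1) → K) j => io (e j)) '' ExcS (ω T) K io ξ T) ∧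
        (ExcS (ω T) K io ξ T : Set (Fin (N + 1) → K)).Finite ∧
        ((ExcS (ω T) K io ξ T : Set (Fin (N + 1) → K)).ncard : ℝ) ≤
          T ^ ((ω T : ℝ)⁻¹) * ({x : K | Y120.HtLe K T x}.ncard : ℝ) ^ N := by
  refine ⟨fun S l j => PF_an S l j, fun e he S l j => pmS_real he S l j, fun e he => ?_, ?_⟩
  · rw [torS_eq]
    exact (famS N).mem he
  · obtain ⟨ω, T₀, h1, h2, h3⟩ := (famS N).main
    refine ⟨ω, T₀, h1, h2, fun T hT => ⟨(h3 T hT).1, ?_⟩⟩
    intro K _ _ hK io ξ
    have h4 := (h3 T hT).2 K hK io ξ
    rw [Fintype.card_fin, Nat.add_sub_cancel] at h4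
    rw [ExcS_eq]
    exact h4

end Pool.Agent.Results.MP_77d3f5_ag.BranchSubsets
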