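import Pool.Agent.N132.Lit.DRConv

/-!
# The index of the de Rham-Betti classes over the motivated classes

Let `X` be a smooth projective variety (with nonzero cohomology) over an algebraically closed
subfield of `ℂ`, for example over the field of algebraic numbers. The period conjecture of
Grothendieck implies that the de Rham-Betti classes on all powers of `X` (the classes `x` in the
rational cohomology such that `(2 π i) ^ j x` is in the algebraic de Rham cohomology, that is, the
linear relations with coefficients in the algebraic numbers between the periods of the powers of `X`
and the powers of `2 π i` of the simplest kind) are algebraic, in particular motivated.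

A system `R` of classes assigns to each variety spaces of rational classes of degree `2 j` which
contain the classes of the algebraic cycles and are stable under products, pull-backs,
push-forwards and the inverse Lefschetz operators. The motivated classes (André) are the smallest
system; the Hodge classes and the de Rham-Betti classes are systems, and also, for example, the
absolutely Hodge classes and the rational classes which are `ℓ`-adic Tate classes.

We prove for EVERY system `R`, without any hypothesis on `X`: the quotient of the dimension of the
space of the classes on `X ^ n` in `R` by the dimension of the space of the motivated classes on `X ^ n`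
converges to a limit `I R` in `{1, 2, 3, …} ∪ {∞}`; the limit is `1` only if all classes on powers of `X`
in `R` are motivated; and if `I R` is finite, then all classes on powers of `X` in `R` are Hodge classes
and de Rham-Betti classes, and `I R` divides the indices `I` of the Hodge classes and of the
de Rham-Betti classes, which are both equal to the same natural number `N` if they are finite.

In particular: if the motivated classes have positive density in the de Rham-Betti classes on the
powers of `X` then all these de Rham-Betti classes are Hodge classes; if the motivated classes have
positive density in the Hodge classes on the powers of `X` then all these Hodge classes are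
de Rham-Betti classes.

In the Lean statement `T` is the cohomology of the complex manifolds with rational coefficients with
its Hodge decomposition, and `D` is the algebraic de Rham cohomology with the comparison isomorphism.
The power `pw X n` is the product of `n + 1` copies of `X`. (The definitions are in
`Pool/Agent/N132/Lit/DRDefs.lean`.)
-/

open CategoryTheory AlgebraicGeometry

universe u

namespace Pool.Agent.Results.MP_77d3f5_ag.DeRhamBettiIndex

open Pool.Agent.H914 Pool.Agent.H914.VarClass Pool.Agent.H914.VarClass.Obj
  Pool.Agent.H914.WeilCohomology Pool.Agent.Y121.AHS Pool.Agent.N132.Lit

open Pool.Agent.Y133.Half (pw HasIndex)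
open Pool.Agent.R920.MT (IsMotivated Property)

variable {k : Type u} [Field k] {𝒱 : VarClass k} {ops : CycleOps 𝒱}

theorem result (T : HodgeTheory ops) (D : DeRham T) (X : 𝒱.Obj) [Nontrivial (T.W.H X)]
    (m : ℕ → ℕ) (hm : ∀ n, m n = sysDim (IsMotivated T.W) (pw X n)) :
    ClassSystem (IsHodge T) ∧ ClassSystem (IsDRB D) ∧
    ∃ (N : ℕ) (I : Property T.W → ℕ∞), 1 ≤ N ∧
      (I (IsHodge T) = N ∨ I (IsHodge T) = ⊤) ∧ (I (IsDRB D) = N ∨ I (IsDRB D) = ⊤) ∧
      ∀ R : Property T.W, ClassSystem R →
        HasIndex (fun n => sysDim R (pw X n)) m (I R) ∧
        (I R = 1 ↔ ∀ n, SubOn (pw X n) R (IsMotivated T.W)) ∧
        (I R ≠ ⊤ → I R ∣ I (IsHodge T) ∧ I R ∣ I (IsDRB D) ∧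
          ∀ n, SubOn (pw X n) R (IsHodge T) ∧ SubOn (pw X n) R (IsDRB D)) := by
  obtain rfl := funext hm
  exact mainDR D X

end Pool.Agent.Results.MP_77d3f5_ag.DeRhamBettiIndex
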