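import Pool.Agent.N121.OH.Fin

/-!
# The Grothendieck period conjecture in growing degree and height for 100% of the products of odd hyperelliptic curves

`n = (n_1, …, n_N)` is a tuple of even numbers, `n_j = 2 g_j`. The coefficients `a` give monic integral polynomials
`F_j = x ^ (n_j + 1) + ∑ a_(j,k) x ^ k` and the curves `y² = F_j(x)` of genus `g_j` with a rational Weierstrass point at
infinity. They are ordered by height: `|a_(j,k)| ≤ T ^ (n_j + 1 - k)`. The motivic torsor of the product of the curves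
(restricted to the spaces `H¹` and to the multiplier) is contained in the torsor below, given by the polarisations
alone. For 100% of the tuples of curves every polynomial relation of degree at most `ω(T)` and height at most
`T ^ ω(T)`, over any number field of degree at most `ω(T)`, between the periods and `2πi` holds on the whole torsor,
where `ω(T) → ∞`.
-/

set_option autoImplicit false

open Polynomial NumberField Filter

namespace Pool.Agent.Results.MP_77d3f5_ag.OddHyperelliptic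

variable {N : ℕ}

/-- the polynomials `F_j = x ^ (n_j + 1) + ∑ a_(j,k) x ^ k` -/
noncomputable def pol (n : Fin N → ℕ) (a : (Σ j, Fin (n j + 1)) → ℤ) (j : Fin N) : ℚ[X] :=
  X ^ (n j + 1) + ∑ k : Fin (n j + 1), C (a ⟨j, k⟩ : ℚ) * X ^ (k : ℕ)

/-- the tuples of polynomials of height at most `T`: `|a_(j,k)| ≤ T ^ (n_j + 1 - k)` -/
noncomputable def Box (n : Fin N → ℕ) (T : ℕ) : Finset ((Σ j, Fin (n j + 1)) → ℤ) :=
  Fintype.piFinset fun q => Finset.Icc (-(T : ℤ) ^ (n q.1 + 1 - q.2)) ((T : ℤ) ^ (n q.1 + 1 - q.2))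

/-- the roots of `F`, in increasing order with respect to `re + im` (so they are distinct) -/
def Branch {m : ℕ} (F : ℚ[X]) (e : Fin (m + 1) → ℂ) : Prop :=
  F.map (algebraMap ℚ ℂ) = ∏ r, (X - C (e r)) ∧ ∀ r s, r < s → (e r).re + (e r).im < (e s).re + (e s).im

/-- a branch of the square root of `∏ (x - e i)`, `m` even, for `x` on the segment from `e l` to `e (l + 1)`: all
arguments of the principal square roots have real part `≥ 0` -/
noncomputable def root {m : ℕ} (e : Fin (m + 1) → ℂ) (l : Fin m) (x : ℂ) : ℂ :=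
  ((1 + Complex.I) ^ (1 / 2 : ℂ)) ^ (m + 1) * Complex.I ^ ((l : ℕ) % 2) *
    ∏ i : Fin (m + 1), ((if (i : ℕ) ≤ l then x - e i else e i - x) / (1 + Complex.I)) ^ (1 / 2 : ℂ)

/-- the point of the segment from `p` to `q` -/
noncomputable def seg (p q : ℂ) (t : ℝ) : ℂ := (1 - t) * p + t * q

/-- the period `∮ x ^ j dx / y`, `y² = ∏ (x - e i)`, over the loop around the segment from `e l` to `e (l + 1)`, that is
twice the integral over the segment -/
noncomputable def period {m : ℕ} (e : Fin (m + 1) → ℂ) (l j : Fin m) : ℂ :=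
  2 * ∫ t in (0 : ℝ)..1, (seg (e l.castSucc) (e l.succ) t) ^ (j : ℕ) / root e l (seg (e l.castSucc) (e l.succ) t) *
    (e l.succ - e l.castSucc)

/-- the polarisation in terms of the forms `x ^ j dx / y`, `y² = F(x) = ∑ c_k x ^ k`: entries
`(i - j)/2 * c_(i+j+2)` -/
noncomputable def polDR (m : ℕ) (F : ℚ[X]) : Matrix (Fin m) (Fin m) ℚ :=
  Matrix.of fun i j => (((i : ℕ) : ℚ) - ((j : ℕ) : ℚ)) / 2 * F.coeff ((i : ℕ) + (j : ℕ) + 2)

/-- the polarisation in terms of the loops: `2 (-1) ^ r` at `(r, s)`, `|r - s| = 1` -/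
def polB (m : ℕ) : Matrix (Fin m) (Fin m) ℚ :=
  Matrix.of fun r s => if (r : ℕ) = s + 1 ∨ (s : ℕ) = r + 1 then 2 * (-1) ^ (r : ℕ) else 0

/-- the complex points of the torsor of the curves `y² = F_j(x)`: matrices `X_j` and `lam ≠ 0` with
`X_j polDR(F_j) X_jᵀ = lam polB` (a torsor under `{(g_1, …, g_N) : g_j ∈ GSp_(2g_j), equal multipliers}`) -/
def Torsor (n : Fin N → ℕ) (F : Fin N → ℚ[X]) : Set ((∀ j, Matrix (Fin (n j)) (Fin (n j)) ℂ) × ℂ) :=
  {x | x.2 ≠ 0 ∧ ∀ j, x.1 j * (polDR (n j) (F j)).map (algebraMap ℚ ℂ) * (x.1 j).transpose =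
    x.2 • (polB (n j)).map (algebraMap ℚ ℂ)}

/-- the entries of the matrices `X_j` -/
def entries {n : Fin N → ℕ} (X : ∀ j, Matrix (Fin (n j)) (Fin (n j)) ℂ) : (Σ j, Fin (n j) × Fin (n j)) → ℂ :=
  fun q => X q.1 q.2.1 q.2.2

/-- the point with coordinates the entries of the matrices `X j` and `lam` -/
def point {n : Fin N → ℕ} (X : ∀ j, Matrix (Fin (n j)) (Fin (n j)) ℂ) (lam : ℂ) :
    Option (Σ j, Fin (n j) × Fin (n j)) → ℂ := fun o => o.elim lam (entries X)

/-- every polynomial `P` of degree `≤ k` with coefficients in the ring of integers of a number field of degree `≤ k`,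
all conjugates of the coefficients being `≤ H` in absolute value, with `P(X, 2πi) = 0`, vanishes on the torsor -/
def BoundedGPC (n : Fin N → ℕ) (F : Fin N → ℚ[X]) (X : ∀ j, Matrix (Fin (n j)) (Fin (n j)) ℂ) (k : ℕ) (H : ℝ) :
    Prop :=
  ∀ (K : Type) [Field K] [NumberField K] (φ : K →+* ℂ) (P : MvPolynomial (Option (Σ j, Fin (n j) × Fin (n j))) (𝓞 K)),
    Module.finrank ℚ K ≤ k → P.totalDegree ≤ k →
    (∀ s (ψ : K →+* ℂ), ‖ψ (algebraMap (𝓞 K) K (P.coeff s))‖ ≤ H) →
    (P.map (φ.comp (algebraMap (𝓞 K) K))).eval (point X (2 * Real.pi * Complex.I)) = 0 →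
    ∀ x ∈ Torsor n F, (P.map (φ.comp (algebraMap (𝓞 K) K))).eval (point x.1 x.2) = 0

/-- every relation `∑ ξ_b P_b(X) = 0`, `P_b` integral polynomials of degree `≤ k` with coefficients `≤ H` in absolute
value, holds on the fibre of the torsor over `2πi` -/
def RelativeGPC (n : Fin N → ℕ) (F : Fin N → ℚ[X]) (X : ∀ j, Matrix (Fin (n j)) (Fin (n j)) ℂ) (k : ℕ)
    (ξ : Fin k → ℂ) (H : ℝ) : Prop :=
  ∀ P : Fin k → MvPolynomial (Σ j, Fin (n j) × Fin (n j)) ℤ, (∀ b, (P b).totalDegree ≤ k) →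
    (∀ b s, |(((P b).coeff s : ℤ) : ℝ)| ≤ H) → ∑ b, ξ b * MvPolynomial.aeval (entries X) (P b) = 0 →
    ∀ Y, (Y, (2 * Real.pi * Complex.I : ℂ)) ∈ Torsor n F → ∑ b, ξ b * MvPolynomial.aeval (entries Y) (P b) = 0

/-- Let `N ≥ 1` and let `n_1, …, n_N` be even. There is `ω : ℕ → ℕ`, `ω(T) → ∞`, such that for all `ε > 0` and
`T ≥ T₀(ε)` and all complex numbers `ξ_b`, `b < ω(T)`, all but a proportion `ε` of the tuples `F` of monic integral
polynomials of degrees `n_j + 1` and height at most `T` satisfy: the roots of `F_j` are distinct, with distinct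
`re + im`; the period matrices of the curves `y² = F_j(x)` and `2πi` form a point of the torsor; all relations of degree
`≤ ω(T)` and size `≤ T ^ ω(T)` over number fields of degree `≤ ω(T)` between the periods and `2πi` hold on the torsor; all
relations of degree `≤ ω(T)` between the periods with coefficients `∑ c_b ξ_b`, `c_b` integers, `|c_b| ≤ T ^ ω(T)`, hold
on its fibre over `2πi`. -/
theorem result (hN : 1 ≤ N) (n : Fin N → ℕ) (hn : ∀ j, Even (n j)) :
    ∃ ω : ℕ → ℕ, Tendsto ω atTop atTop ∧ ∀ ε : ℝ, 0 < ε → ∃ T₀ : ℕ, ∀ T : ℕ, T₀ ≤ T → ∀ ξ : Fin (ω T) → ℂ,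
      ∃ E ⊆ Box n T, (E.card : ℝ) ≤ ε * (Box n T).card ∧ ∀ a ∈ Box n T, a ∉ E →
        ∃ e : ∀ j, Fin (n j + 1) → ℂ, (∀ j, Branch (pol n a j) (e j)) ∧
          ((fun j => Matrix.of (period (e j))), (2 * Real.pi * Complex.I : ℂ)) ∈ Torsor n (pol n a) ∧
          BoundedGPC n (pol n a) (fun j => Matrix.of (period (e j))) (ω T) ((T : ℝ) ^ ω T) ∧
          RelativeGPC n (pol n a) (fun j => Matrix.of (period (e j))) (ω T) ξ ((T : ℝ) ^ ω T) := by
  have : Nonempty (Fin N) := ⟨⟨0, hN⟩⟩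
  obtain ⟨ω, hω, H⟩ := Pool.Agent.N121.OH.main (n := n) hn
  refine ⟨ω, hω, fun ε hε => ?_⟩
  obtain ⟨T₀, hT₀⟩ := H ε hε
  refine ⟨T₀, fun T hT ξ => ?_⟩
  obtain ⟨E, hE1, hE2, hE3⟩ := hT₀ T hT ξ
  refine ⟨E, hE1, hE2, fun a ha haE => ?_⟩
  obtain ⟨e, he, h1, h2, h3⟩ := hE3 a ha haE
  have hmap : ∀ j, (pol n a j).map (algebraMap ℚ ℂ) = Pool.Agent.N121.OH.rp (e j) := by
    intro j
    rw [← (he j).1]
    unfold pol Pool.Agent.N121.OH.cp
    simp [Polynomial.map_sum]
  have htor : Torsor n (pol n a) = Pool.Agent.N121.OH.TorC n (fun j => Pool.Agent.N121.OH.rp (e j)) := by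
    ext x
    unfold Torsor Pool.Agent.N121.OH.TorC
    have hq : ∀ j, (polDR (n j) (pol n a j)).map (algebraMap ℚ ℂ) =
        Pool.Agent.Y118.HP.qm (n j) (Pool.Agent.N121.OH.rp (e j)) := by
      intro j
      rw [← hmap j]
      ext r s
      rw [Matrix.map_apply]
      unfold polDR Pool.Agent.Y118.HP.qm
      rw [Matrix.of_apply, Matrix.of_apply, Polynomial.coeff_map]
      simp
    simp only [Set.mem_ofPred_eq, hq]
    rfl
  refine ⟨e, fun j => ⟨hmap j, (he j).2⟩, ?_, ?_, ?_⟩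
  · rw [htor]
    exact h1
  · intro K _ _ φ P hK hd hc h0 x hx
    rw [htor] at hx
    exact h2 K φ P hK hd hc h0 x hx
  · intro P hd hc h0 Y hY
    rw [htor] at hY
    exact h3 P hd hc h0 Y hY

end Pool.Agent.Results.MP_77d3f5_ag.OddHyperelliptic
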